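import Pool.Agent.helper13.RF.Spec1

set_option autoImplicit false

open NumberField
open scoped nonZeroDivisors

namespace Pool.Agent.RF

theorem URK_one (L : Type) [Field L] [NumberField L] (hL : IsTotallyReal L) (u : (𝓞 L)ˣ) (hu : u ^ 5 = 1) : u = 1 := by
  obtain ⟨v⟩ : Nonempty (InfinitePlace L) := inferInstance
  have hv := hL.isReal v
  let φ : L →+* ℝ := InfinitePlace.embedding_of_isReal hv
  have h1 : ((u : 𝓞 L) : L) ^ 5 = 1 := by
    have h2 := congrArg (fun z : (𝓞 L)ˣ => (((z : 𝓞 L)) : L)) hu
    simpa using h2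
  have h3 : (φ ((u : 𝓞 L) : L)) ^ 5 = 1 ^ 5 := by
    rw [← map_pow, h1, map_one, one_pow]
  have h4 : φ ((u : 𝓞 L) : L) = 1 := (Odd.strictMono_pow (R := ℝ) (n := 5) (by decide)).injective h3
  have h5 : ((u : 𝓞 L) : L) = 1 := φ.injective (by rw [h4, map_one])
  apply Units.ext
  apply RingOfIntegers.ext
  simpa using h5

theorem URK_rank (L : Type) [Field L] [NumberField L] (hL : IsTotallyReal L) :
    NumberField.Units.rank L = Module.finrank ℚ L - 1 := by
  have h1 : InfinitePlace.nrComplexPlaces L = 0 := nrComplexPlaces_eq_zero_iff.2 hL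
  have h2 := InfinitePlace.card_add_two_mul_card_eq_rank L
  have h3 := InfinitePlace.card_eq_nrRealPlaces_add_nrComplexPlaces (K := L)
  unfold NumberField.Units.rank
  omega

theorem URK_quot (L : Type) [Field L] [NumberField L] :
    (powMonoidHom (α := (𝓞 L)ˣ ⧸ NumberField.Units.torsion L) 5).range.index = 5 ^ NumberField.Units.rank L := by
  have h := AddSubgroup.index_range_nsmul (Additive ((𝓞 L)ˣ ⧸ NumberField.Units.torsion L)) 5
  rw [NumberField.Units.finrank_modTorsion] at h
  rw [← h, ← Subgroup.index_toAddSubgroup]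
  rfl

theorem URK : URK_stmt := by
  intro L _ _ hL
  refine ⟨URK_one L hL, ?_⟩
  rw [← URK_rank L hL, ← URK_quot L]
  have hsurj : Function.Surjective (QuotientGroup.mk' (NumberField.Units.torsion L)) := QuotientGroup.mk'_surjective _
  have hT : Function.Surjective (fun t : NumberField.Units.torsion L => t ^ 5) := by
    have hinj : Function.Injective (powMonoidHom 5 : NumberField.Units.torsion L →* NumberField.Units.torsion L) := by
      rw [injective_iff_map_eq_one]
      intro t ht
      have h1 : ((t : (𝓞 L)ˣ)) ^ 5 = 1 := by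
        have h2 := congrArg Subtype.val ht
        simpa using h2
      exact Subtype.ext (URK_one L hL _ h1)
    exact Finite.surjective_of_injective hinj
  rw [← Subgroup.index_comap_of_surjective _ hsurj]
  refine congrArg Subgroup.index ?_
  ext x
  rw [Subgroup.mem_comap, MonoidHom.mem_range, MonoidHom.mem_range]
  constructor
  · rintro ⟨y, rfl⟩
    exact ⟨QuotientGroup.mk' _ y, by rw [powMonoidHom_apply, powMonoidHom_apply, map_pow]⟩
  · rintro ⟨z, hz⟩
    obtain ⟨y, rfl⟩ := hsurj z
    rw [powMonoidHom_apply, ← map_pow] at hz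
    have h1 : (y ^ 5)⁻¹ * x ∈ NumberField.Units.torsion L := by
      rw [← QuotientGroup.eq]
      exact hz
    obtain ⟨t, ht⟩ := hT ⟨_, h1⟩
    have h2 : (t : (𝓞 L)ˣ) ^ 5 = (y ^ 5)⁻¹ * x := by
      have h3 := congrArg Subtype.val ht
      simpa using h3
    refine ⟨y * t, ?_⟩
    rw [powMonoidHom_apply, mul_pow, h2, mul_inv_cancel_left]

end Pool.Agent.RF
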