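import Pool.Agent.helper13.RF.SpecU
import Pool.Agent.helper33.RF.TRA
import Pool.Agent.helper85.RF.TYP

/-!
# RF (MP_16912e_nt), stage 2, row `rf:ULN`: the primes which do not contain `f`
-/

set_option autoImplicit false

namespace Pool.Agent.RF

open NumberField

theorem ULN_tau (hT : TVA_stmt) {D₀ : ℤ} {F : Type} [Field F] [NumberField F] (C : Ctx D₀ F) (P : Ideal (𝓞 F))
    (hP : P.IsPrime) (hP0 : P ≠ ⊥) (hss : C.σ (C.σ C.w) = -C.w) (h4 : ∀ x : 𝓞 F, C.σ (C.σ (C.σ (C.σ x))) = x)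
    (hw : C.w ∈ P) (h10 : (10 : 𝓞 F) ∉ P) (x : 𝓞 F) (hx : x ≠ 0) : vv P (C.σ (C.σ x)) = vv P x := by
  have hd : ∀ x : 𝓞 F, x - C.σ (C.σ x) ∈ P := by
    intro x
    obtain ⟨a, b, hab⟩ := C.co x
    have h1 := congrArg (fun y => C.σ (C.σ y)) hab
    simp only [map_mul, map_add, C.σι, star_star, hss, map_ofNat] at h1
    have h2 : 10 * (x - C.σ (C.σ x)) = (2 * C.ι b) * C.w := by linear_combination hab - h1
    have h3 : 10 * (x - C.σ (C.σ x)) ∈ P := by rw [h2]; exact P.mul_mem_left _ hw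
    exact (hP.mem_or_mem h3).resolve_left h10
  have hmap : ∀ y ∈ P, C.σ (C.σ y) ∈ P := by
    intro y hy
    have := P.sub_mem hy (hd y)
    rwa [sub_sub_cancel] at this
  have s0 : ∀ y : 𝓞 F, y ≠ 0 → C.σ (C.σ y) ≠ 0 := by
    intro y hy h
    exact hy (by simpa using h)
  have hle : ∀ y : 𝓞 F, y ≠ 0 → vv P y ≤ vv P (C.σ (C.σ y)) := by
    intro y hy
    rw [← (hT F P hP hP0).1 _ _ (s0 y hy)]
    have h1 : y ∈ P ^ vv P y := ((hT F P hP hP0).1 y _ hy).2 le_rfl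
    have h2 : Ideal.map ((C.σ : 𝓞 F →+* 𝓞 F).comp (C.σ : 𝓞 F →+* 𝓞 F)) (P ^ vv P y) ≤ P ^ vv P y := by
      rw [Ideal.map_pow]
      exact Ideal.pow_right_mono (Ideal.map_le_iff_le_comap.2 (fun y hy => Ideal.mem_comap.2 (hmap y hy))) _
    exact h2 (Ideal.mem_map_of_mem _ h1)
  have h5 := hle (C.σ (C.σ x)) (s0 x hx)
  rw [h4] at h5
  exact le_antisymm h5 (hle x hx)

theorem ULN_w2 : w2 * star w2 = 5 := by
  rw [TRA_w2, star_add, TRA_2, TRA_phs]
  linear_combination (-1) * TRA_ph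

theorem ULN (hWEU : WEU_stmt) (h1 : UVR_stmt) (h2 : UUE_stmt) (h3 : UPI_stmt) (h4 : VVM_stmt) (h5 : YVM_stmt)
    (h6 : YPL_stmt) (h7 : TVA_stmt) : ULN_stmt := by
  have _ := hWEU
  intro D₀ F _ _ C p f hsq hp hpD P hP hP0 hf
  obtain ⟨-, -, -, -, -, -, -, -, hss, -, hw0, hf0, -, hu0, hn0, hn0', -, hs4, hinj⟩ := h2 D₀ F C p f hp hpD
  obtain ⟨v1, v2, -⟩ := h4 F P hP hP0
  obtain ⟨π, hπ, -, hπm, -⟩ := h3 D₀ F C P hP hP0
  obtain ⟨-, y2, -⟩ := h5 π hπ
  have hπu : ¬ π ∣ 1 := fun h => hπ.not_isUnit (isUnit_of_dvd_one h)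
  have hD0 : D₀ ≠ 0 := by
    intro h
    have := hp.D0
    rw [hpD, h, zero_mul] at this
    exact lt_irrefl _ this
  have hz : ∀ x : 𝓞 F, x ≠ 0 → x ∉ P → vv P x = 0 := by
    intro x hx hxP
    by_contra h
    exact hxP ((v2 x hx).1 (Nat.pos_of_ne_zero h))
  have hι0 : ∀ x : OO, x ≠ 0 → C.ι x ≠ 0 := by
    intro x hx h
    exact hx (hinj x 0 (by rw [h, map_zero]))
  have hιz : ∀ x : OO, ¬ π ∣ x → vv P (C.ι x) = 0 := by
    intro x hx
    refine hz _ (hι0 x ?_) (fun h => hx ((hπm x).1 h))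
    rintro rfl
    exact hx (dvd_zero _)
  have hfz : vv P (f : 𝓞 F) = 0 := hz _ hf0 hf
  have r := h1 D₀ F C p f hp hpD P hP hP0 (vv P (C.σ (C.σ (uu C f p)))) (vv P (C.σ (C.σ (C.σ (uu C f p))))) (vv P (uu C f p))
    (vv P (C.σ (uu C f p))) _ _ _ _ _ _ rfl rfl rfl rfl rfl rfl rfl rfl rfl rfl
  have htau : C.w ∈ P → (10 : 𝓞 F) ∉ P → vv P (C.σ (C.σ (uu C f p))) = vv P (uu C f p) := fun hw h10 =>
    ULN_tau h7 C P hP hP0 hss hs4 hw h10 _ hu0
  generalize vv P (C.σ (C.σ (uu C f p))) = c0 at r htau ⊢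
  generalize vv P (C.σ (C.σ (C.σ (uu C f p)))) = c1 at r
  generalize vv P (uu C f p) = c2 at r htau ⊢
  generalize vv P (C.σ (uu C f p)) = c3 at r
  generalize vv P (th C f p) = x0 at r
  generalize vv P (C.σ (th C f p)) = x1 at r
  generalize vv P (C.σ (C.σ (th C f p))) = x2 at r
  generalize vv P (C.σ (C.σ (C.σ (th C f p)))) = x3 at r
  obtain ⟨q1, q2, q3, q4, q5, q6, q7, q8, q9⟩ := r
  rw [hfz] at q7 q8
  by_cases hn : π ∣ p.n
  swap
  · rw [hιz _ hn] at q1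
    have e2 : c2 = 0 := by omega
    refine ⟨by rw [e2]; exact dvd_zero _, Or.inl ?_⟩
    rw [e2]
    exact Nat.min_zero _
  -- the units at `π`
  have h25 : ¬ π ∣ 5 := by
    intro h
    have h8 : π ∣ p.n - 1 := dvd_trans (dvd_trans h ⟨5, by norm_num⟩) hp.n1
    exact hπu (by have := dvd_sub hn h8; rwa [sub_sub_cancel] at this)
  have h22 : ¬ π ∣ 2 := by
    intro h
    obtain ⟨a, b, hab⟩ := hp.n2
    exact hπu (by rw [← hab]; exact dvd_add (dvd_mul_of_dvd_right h _) (dvd_mul_of_dvd_right hn _))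
  have h5P : (5 : 𝓞 F) ∉ P := by
    intro h
    apply h25
    rw [← hπm, map_ofNat]
    exact h
  have h10P : (10 : 𝓞 F) ∉ P := by
    intro h
    have h8 : π ∣ 10 := by
      rw [← hπm, map_ofNat]
      exact h
    have h9 : (10 : OO) = 2 * 5 := by norm_num
    rw [h9] at h8
    exact (hπ.dvd_or_dvd h8).elim h22 h25
  have hw2 : ¬ π ∣ w2 := fun h => h25 (by rw [← ULN_w2]; exact dvd_mul_of_dvd_left h _)
  have hw2' : ¬ π ∣ star w2 := fun h => h25 (by rw [← ULN_w2]; exact dvd_mul_of_dvd_right h _)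
  have hkk : ¬ π ∣ p.k ∨ ¬ π ∣ star p.k := by
    by_contra h
    push Not at h
    obtain ⟨a, b, hab⟩ := hp.kk
    exact hπu (by rw [← hab]; exact dvd_add (dvd_mul_of_dvd_right h.1 _) (dvd_mul_of_dvd_right h.2 _))
  have h25' : ∀ x : OO, ¬ π ∣ x → ¬ π ∣ 25 * x := by
    intro x hx h
    have h9 : (25 : OO) = 5 * 5 := by norm_num
    rw [h9] at h
    rcases hπ.dvd_or_dvd h with h | h
    · exact (hπ.dvd_or_dvd h).elim h25 h25
    · exact hx h
  have h2' : ∀ x : OO, ¬ π ∣ x → ¬ π ∣ 2 * x := by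
    intro x hx h
    exact (hπ.dvd_or_dvd h).elim h22 hx
  have e1 := hp.e1
  have e1' := congrArg star e1
  simp only [star_add, star_mul, star_pow, star_star, TRA_25, TRA_star_int] at e1'
  by_cases hn' : π ∣ star p.n
  · -- CASE 1
    have key : ∀ X K w m : OO, X ^ 2 + w * (p.D : OO) * K ^ 2 = m → π ^ 2 ∣ m → ¬ π ∣ w → ¬ π ∣ K → ¬ π ∣ (p.D : OO) := by
      intro X K w m hm hm2 hw hK hD
      -- `π ^ 2` does not divide `D`
      have hDf : (p.D : OO) = (D₀ : OO) * (f : OO) ^ 2 := by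
        rw [hpD]
        push_cast
        rfl
      have hπf : ¬ π ∣ (f : OO) := by
        intro h
        apply hf
        rw [← hπm, map_natCast] at h
        exact h
      have hπf2 : ¬ π ∣ (f : OO) ^ 2 := fun h => hπf (hπ.dvd_of_dvd_pow h)
      have hπD0 : π ∣ (D₀ : OO) := by
        rw [hDf] at hD
        exact (hπ.dvd_or_dvd hD).resolve_right hπf2
      have hDP : (D₀ : 𝓞 F) ∈ P := by
        have := (hπm _).2 hπD0
        rwa [map_intCast] at this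
      have hDP' : ((D₀.natAbs : ℕ) : 𝓞 F) ∈ P := by
        rw [← Int.cast_natCast]
        rcases Int.natAbs_eq D₀ with h | h
        · rw [← h]
          exact hDP
        · have h8 : ((D₀.natAbs : ℕ) : ℤ) = -D₀ := by omega
          rw [h8, Int.cast_neg]
          exact P.neg_mem hDP
      obtain ⟨l, hl, hl1, hl2⟩ := TYP_l F P hP D₀.natAbs (Int.natAbs_pos.2 hD0) hDP'
      have hl5 : l ≠ 5 := by
        rintro rfl
        exact h5P (by exact_mod_cast hl2)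
      obtain ⟨S, -, hS1, hS2, -⟩ := h6 l hl hl5
      have hπl : π ∣ (l : OO) := by
        rw [← hπm, map_natCast]
        exact hl2
      obtain ⟨π₁, hπ₁, has⟩ := hS2 π hπ hπl
      obtain ⟨-, -, hS4, hS5⟩ := hS1 π₁ hπ₁
      have hS4' : ¬ π ^ 2 ∣ (l : OO) := fun h => hS4 ((has.pow_pow (n := 2)).dvd_iff_dvd_left.1 h)
      obtain ⟨m', hm'⟩ : (l : ℤ) ∣ D₀ := Int.natCast_dvd.2 hl1
      have hlm : ¬ (l : ℤ) ∣ m' := by
        rintro ⟨m2, hm2⟩
        have h8 : (l : ℤ) * l ∣ D₀ := ⟨m2, by rw [hm', hm2]; ring⟩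
        have h9 := hsq _ h8
        rw [Int.isUnit_iff] at h9
        have := hl.two_le
        omega
      have hπm' : ¬ π ∣ (m' : OO) := fun h => hlm (hS5 m' (has.dvd_iff_dvd_left.1 h))
      have h8 : ¬ π ^ (1 + 0 + 1) ∣ (l : OO) * (m' : OO) := y2 _ _ 1 0 hS4' (by rw [zero_add, pow_one]; exact hπm')
      have h9 : ¬ π ^ (1 + 1) ∣ (D₀ : OO) := by
        rw [hm']
        push_cast
        exact h8
      have h10 : ¬ π ^ (1 + 0 + 1) ∣ (D₀ : OO) * (f : OO) ^ 2 := y2 _ _ 1 0 h9 (by rw [zero_add, pow_one]; exact hπf2)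
      have h11 : ¬ π ^ (0 + 1 + 1) ∣ w * (p.D : OO) := y2 _ _ 0 1 (by rw [zero_add, pow_one]; exact hw) (by rw [hDf]; exact h10)
      have h12 : ¬ π ^ (1 + 0 + 1) ∣ w * (p.D : OO) * K ^ 2 := y2 _ _ 1 0 h11 (by
        rw [zero_add, pow_one]
        exact fun h => hK (hπ.dvd_of_dvd_pow h))
      have h13 : π ∣ X ^ 2 := by
        have h14 : X ^ 2 = m - w * (p.D : OO) * K ^ 2 := by rw [← hm]; ring
        rw [h14]
        exact dvd_sub (dvd_trans (dvd_pow_self π two_ne_zero) hm2) (dvd_mul_of_dvd_left (dvd_mul_of_dvd_right hD _) _)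
      have h14 : π ^ 2 ∣ X ^ 2 := pow_dvd_pow_of_dvd (hπ.dvd_of_dvd_pow h13) 2
      apply h12
      have h15 : w * (p.D : OO) * K ^ 2 = m - X ^ 2 := by rw [← hm]; ring
      rw [h15]
      exact dvd_sub hm2 h14
    have key2 : ∀ X K w m : OO, X ^ 2 + w * (p.D : OO) * K ^ 2 = m → π ∣ m → ¬ π ∣ w → ¬ π ∣ K → ¬ π ∣ (p.D : OO) → ¬ π ∣ X := by
      intro X K w m hm hm2 hw hK hD hX
      have h15 : w * (p.D : OO) * K ^ 2 = m - X * X := by rw [← hm]; ring
      have h16 : π ∣ w * (p.D : OO) * K ^ 2 := by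
        rw [h15]
        exact dvd_sub hm2 (dvd_mul_of_dvd_left hX _)
      rcases hπ.dvd_or_dvd h16 with h | h
      · exact (hπ.dvd_or_dvd h).elim hw hD
      · exact hK (hπ.dvd_of_dvd_pow h)
    have hm1 : π ^ 2 ∣ p.n ^ 2 * star p.n := dvd_mul_of_dvd_left (pow_dvd_pow_of_dvd hn 2) _
    have hm1' : π ^ 2 ∣ star p.n ^ 2 * p.n := dvd_mul_of_dvd_left (pow_dvd_pow_of_dvd hn' 2) _
    have hpi2 : ∀ m : OO, π ^ 2 ∣ m → π ∣ m := fun m h => dvd_trans (dvd_pow_self π two_ne_zero) h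
    have e1'' : star p.X ^ 2 + star w2 * (p.D : OO) * (25 * star p.k) ^ 2 = star p.n ^ 2 * p.n := by
      rw [mul_comm (star p.n ^ 2), ← e1']
      ring
    have hc : c2 = 0 ∨ c0 = 0 := by
      rcases hkk with hk | hk
      · have hD := key _ _ _ _ e1 hm1 hw2 (h25' _ hk)
        have hX := key2 _ _ _ _ e1 (hpi2 _ hm1) hw2 (h25' _ hk) hD
        have hX0 : p.X ≠ 0 := by
          intro h
          rw [h] at hX
          exact hX (dvd_zero _)
        obtain ⟨q10, q11⟩ := q9 hX0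
        rw [hιz _ (h2' _ hX)] at q10
        omega
      · have hD := key _ _ _ _ e1'' hm1' hw2' (h25' _ hk)
        have hX := key2 _ _ _ _ e1'' (hpi2 _ hm1') hw2' (h25' _ hk) hD
        have hX0 : p.X ≠ 0 := by
          intro h
          rw [h, star_zero] at hX
          exact hX (dvd_zero _)
        obtain ⟨q10, q11⟩ := q9 hX0
        rw [hιz _ (h2' _ hX)] at q11
        omega
    refine ⟨?_, Or.inl ?_⟩
    · omega
    · omega
  · -- CASE 2
    rw [hιz _ hn'] at q2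
    have hmin : min c0 c2 ≤ 5 * vv P C.w := by
      rcases hkk with hk | hk
      · rw [hιz _ (h2' _ (h25' _ hk))] at q7
        omega
      · rw [hιz _ (h2' _ (h25' _ hk))] at q8
        omega
    refine ⟨by omega, ?_⟩
    by_cases hw : C.w ∈ P
    · right
      have h8 := htau hw h10P
      refine ⟨h5P, h8, ?_⟩
      have h9 : vv P (C.w ^ 2) = 2 * vv P C.w := by
        rw [sq, v1 _ _ hw0 hw0]
        ring
      have h10 : C.w ^ 2 = C.ι (-w2) * (D₀ : 𝓞 F) := by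
        rw [C.ww, map_neg]
        ring
      have h11 : (D₀ : 𝓞 F) ≠ 0 := Int.cast_ne_zero.2 hD0
      have h12 : ¬ π ∣ -w2 := fun h => hw2 ((dvd_neg).1 h)
      have h13 : C.ι (-w2) ≠ 0 := by
        refine hι0 _ ?_
        intro h
        rw [h] at h12
        exact h12 (dvd_zero _)
      rw [h10, v1 _ _ h13 h11, hιz _ h12] at h9
      omega
    · left
      rw [hz _ hw0 hw] at hmin
      omega

end Pool.Agent.RF
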