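import Pool.Agent.helper60.RF.SpecB

set_option autoImplicit false

namespace Pool.Agent.RF

open NumberField

theorem CNT (h1 : MEX_stmt) (h2 : CTX_stmt) (h3 : GDV_stmt) (h4 : TYP_stmt) (h5 : CLS_stmt) (h6 : MUL_stmt) : CNT_stmt := by
  intro D₀ f g hD1 hsq h5D K _ _ hK hx N hN S hS hk
  have hD5 : D₀ ≠ 5 := by
    rintro rfl
    exact h5D dvd_rfl
  obtain ⟨F, _, _, s, r, w, hM⟩ := h1 D₀ hD1 hsq hD5
  obtain ⟨C, hCs, -⟩ := h2 D₀ F s r w hD1 hsq h5D hM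
  have hM' : Mir D₀ F C.s r w := by rw [hCs]; exact hM
  have hlog : 0 ≤ Real.logb 2 N := Real.logb_nonneg (by norm_num) (by linarith)
  have hB' : (0 : ℝ) ≤ 1 + 36 ^ f.primeFactors.card * (1 + 180 * ((f : ℝ) / (g * f1 f g)) ^ 2) := by positivity
  have hB : (0 : ℝ) ≤ (Nat.card {c : ClassGroup (𝓞 K) // c ^ 5 = 1} : ℝ) *
      (1 + 36 ^ f.primeFactors.card * (1 + 180 * ((f : ℝ) / (g * f1 f g)) ^ 2)) := by positivity
  rcases S.eq_empty_or_nonempty with he | ⟨p₀, hp₀⟩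
  · rw [he, Finset.card_empty, Nat.cast_zero]
    positivity
  · have hg : 0 < g := by
      obtain ⟨a1, a2, a3, -⟩ := hS p₀ hp₀
      rw [← a3]
      exact (h3 p₀ a1 D₀ f hsq a2).2.2.2
    refine h4 D₀ F C f g hM.fin hg N _ hN hB S hS ?_
    intro T hT hSame
    refine h5 D₀ F C f g hD1 hsq hD5 ⟨r, w, hM'⟩ K hK hx _ hB' T (fun p hp => ?_) hSame ?_
    · obtain ⟨a1, a2, a3, -⟩ := hS p (hT hp)
      exact ⟨a1, a2, a3⟩
    · intro T' hT' hEq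
      refine h6 D₀ F C f g hsq (by omega) T' (fun p hp => ?_) (fun p hp q hq => hk p (hT (hT' hp)) q (hT (hT' hq)))
        (fun p hp q hq => ⟨hSame p (hT' hp) q (hT' hq), hEq p hp q hq⟩)
      obtain ⟨a1, a2, a3, a4, -⟩ := hS p (hT (hT' hp))
      exact ⟨a1, a2, a3, a4⟩

end Pool.Agent.RF
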