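import Pool.Agent.helper95.RF.SpecC2

set_option autoImplicit false

/-!
# RF, block C: row CGD (many good tuples)
-/

namespace Pool.Agent.RF

open Finset NumberField Pool.Agent.helper3.FT

/-- Union bound. -/
theorem CGD_union {α β : Type} (H : Finset α) (a : α → Prop) (b : β → α → Prop) (Λ : Finset ℕ)
    (G : ℕ → Finset β) {i1 : DecidablePred a} {i2 : ∀ p, DecidablePred (b p)}
    {i3 : DecidablePred (fun t => ¬ a t ∧ ∀ l ∈ Λ, ∀ p ∈ G l, ¬ b p t)} :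
    H.card ≤ (H.filter (fun t => ¬ a t ∧ ∀ l ∈ Λ, ∀ p ∈ G l, ¬ b p t)).card + (H.filter a).card +
      ∑ l ∈ Λ, ∑ p ∈ G l, (H.filter (b p)).card := by
  classical
  have h1 : H ⊆ ((H.filter (fun t => ¬ a t ∧ ∀ l ∈ Λ, ∀ p ∈ G l, ¬ b p t)) ∪ H.filter a) ∪
      Λ.biUnion (fun l => (G l).biUnion (fun p => H.filter (b p))) := by
    intro t ht
    by_cases ha : a t
    · exact mem_union_left _ (mem_union_right _ (mem_filter.2 ⟨ht, ha⟩))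
    · by_cases hb : ∀ l ∈ Λ, ∀ p ∈ G l, ¬ b p t
      · exact mem_union_left _ (mem_union_left _ (mem_filter.2 ⟨ht, ha, hb⟩))
      · simp only [not_forall, not_not] at hb
        obtain ⟨l, hl, p, hp, hbp⟩ := hb
        exact mem_union_right _ (mem_biUnion.2 ⟨l, hl, mem_biUnion.2 ⟨p, hp, mem_filter.2 ⟨ht, hbp⟩⟩⟩)
  refine (card_le_card h1).trans ((card_union_le _ _).trans (Nat.add_le_add (card_union_le _ _) ?_))
  exact card_biUnion_le.trans (sum_le_sum fun l _ => card_biUnion_le)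

/-- The number of elements of a family. -/
theorem CGD_card {Q : ℕ} {T : Finset OO} (h : KF Q T) : T.card ≤ Q := by
  have h1 : (T.image (fun k => k.norm.natAbs)).card = T.card :=
    card_image_of_injOn (fun k hk k' hk' e => h.inj k hk k' hk' e)
  rw [← h1]
  have h2 : T.image (fun k => k.norm.natAbs) ⊆ Ioc Q (2 * Q) := by
    intro q hq
    obtain ⟨k, hk, rfl⟩ := mem_image.1 hq
    exact mem_Ioc.2 ⟨(h.kk k hk).lo, (h.kk k hk).hi⟩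
  have h3 := card_le_card h2
  rw [Nat.card_Ioc] at h3
  omega

/-- The final inequality. -/
theorem CGD_final {η N B T A1 A2 W : ℝ} (hη : 0 < η) (hB : 1 ≤ B) (hN : 1 ≤ N) (hNB : 56 * B ^ 2 ≤ N ^ (η / 50))
    (hT : N ^ (1 - 17 / 25 * η) ≤ T) (h1 : 3 / 4 * T - N ^ (1 - 5 / 4 * η) ≤ W + A1 + A2)
    (h2 : A1 ≤ 32 * B ^ 2 * N ^ (1 - 4 / 3 * η)) (h3 : A2 ≤ 1 / 8 * T + N ^ (1 - 4 / 5 * η)) :
    N ^ (1 - 7 / 10 * η) ≤ W := by
  have hN0 : 0 < N := by linarith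
  have e1 : N ^ (1 - 17 / 25 * η) = N ^ (1 - 7 / 10 * η) * N ^ (η / 50) := by
    rw [← Real.rpow_add hN0]
    congr 1
    ring
  have e2 : N ^ (1 - 5 / 4 * η) ≤ N ^ (1 - 7 / 10 * η) := Real.rpow_le_rpow_of_exponent_le hN (by linarith)
  have e3 : N ^ (1 - 4 / 3 * η) ≤ N ^ (1 - 7 / 10 * η) := Real.rpow_le_rpow_of_exponent_le hN (by linarith)
  have e4 : N ^ (1 - 4 / 5 * η) ≤ N ^ (1 - 7 / 10 * η) := Real.rpow_le_rpow_of_exponent_le hN (by linarith)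
  have e0 : 0 < N ^ (1 - 7 / 10 * η) := Real.rpow_pos_of_pos hN0 _
  have hB2 : 1 ≤ B ^ 2 := one_le_pow₀ hB
  have e5 : 56 * B ^ 2 * N ^ (1 - 7 / 10 * η) ≤ N ^ (1 - 17 / 25 * η) := by
    rw [e1, mul_comm]
    exact mul_le_mul_of_nonneg_left hNB e0.le
  have e6 : 32 * B ^ 2 * N ^ (1 - 4 / 3 * η) ≤ 32 * B ^ 2 * N ^ (1 - 7 / 10 * η) :=
    mul_le_mul_of_nonneg_left e3 (by positivity)
  have e7 : N ^ (1 - 7 / 10 * η) ≤ B ^ 2 * N ^ (1 - 7 / 10 * η) := le_mul_of_one_le_left e0.le hB2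
  nlinarith

open Classical in
/-- **CGD.** -/
theorem CGD (h1 : CLB_stmt) (h2 : CBS_stmt) (h3 : CT0_stmt) (h4 : CTR_stmt) (h5 : CSP_stmt) (h6 : CPX_stmt) :
    CGD_stmt := by
  obtain ⟨C₀, hC₀, h2⟩ := h2
  set w₀ : ℕ := ⌈8 * C₀⌉₊ with hw₀
  have hw8 : 8 * C₀ ≤ (w₀ : ℝ) := Nat.le_ceil _
  have hw1 : 1 ≤ w₀ := by
    have h : (1 : ℝ) ≤ w₀ := by linarith
    exact_mod_cast h
  set F : Finset ℕ := (range (w₀ + 1)).filter (fun p => p.Prime ∧ p ≠ 2 ∧ p ≠ 5) with hF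
  set P : ℕ := ∏ p ∈ F, p with hP
  have hP1 : 1 ≤ P := Nat.one_le_iff_ne_zero.2 (prod_ne_zero_iff.2 fun p hp => (mem_filter.1 hp).2.1.ne_zero)
  have hP10 : Nat.Coprime P 10 := by
    refine Nat.Coprime.prod_left fun p hp => ?_
    obtain ⟨-, hpp, hp2, hp5⟩ := mem_filter.1 hp
    have e : (10 : ℕ) = 2 * 5 := rfl
    rw [e]
    exact Nat.Coprime.mul_right ((Nat.coprime_primes hpp Nat.prime_two).2 hp2)
      ((Nat.coprime_primes hpp Nat.prime_five).2 hp5)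
  refine ⟨P, hP1, hP10, fun B η c hB hη hη1 hc => ?_⟩
  set E : ℕ := 16 * 5 ^ 6 * P with hE
  have hE1 : 250000 ≤ E := by
    rw [hE]
    calc 250000 = 16 * 5 ^ 6 * 1 := by norm_num
      _ ≤ 16 * 5 ^ 6 * P := Nat.mul_le_mul_left _ hP1
  have hE0 : 1 ≤ E := by omega
  obtain ⟨N1, h1⟩ := h1 E B η hE0 hB hη hη1
  obtain ⟨N2, h2⟩ := h2 E B w₀ η hE0 hB hw1 hη hη1
  obtain ⟨N3, h3⟩ := h3 E B η c hE0 hB hη hη1 hc
  obtain ⟨N6, h6⟩ := h6 E B η hE0 hB hη hη1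
  obtain ⟨N7, h7⟩ := Filter.eventually_atTop.1
    ((tendsto_rpow_atTop (show 0 < η / 50 by positivity)).eventually_ge_atTop (56 * (B : ℝ) ^ 2))
  refine ⟨max (max (max N1 N2) (max N3 N6)) (max N7 1), fun N hN => ?_⟩
  have hN1 : N1 ≤ N := le_trans (le_trans (le_max_left _ _) (le_trans (le_max_left _ _) (le_max_left _ _))) hN
  have hN2 : N2 ≤ N := le_trans (le_trans (le_max_right _ _) (le_trans (le_max_left _ _) (le_max_left _ _))) hN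
  have hN3 : N3 ≤ N := le_trans (le_trans (le_max_left _ _) (le_trans (le_max_right _ _) (le_max_left _ _))) hN
  have hN6 : N6 ≤ N := le_trans (le_trans (le_max_right _ _) (le_trans (le_max_right _ _) (le_max_left _ _))) hN
  have hN7 : N7 ≤ N := le_trans (le_trans (le_max_left _ _) (le_max_right _ _)) hN
  have hN0 : 1 ≤ N := le_trans (le_trans (le_max_right _ _) (le_max_right _ _)) hN
  intro Q L V z₀ S T M₀ s₀ hRg hPar hKF hcard hcl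
  have hNpos : 0 < N := by linarith
  have h1 := h1 N hN1 Q L V z₀ S T M₀ s₀ hRg hPar hKF
  have hcl' : ∀ k ∈ T, 0 ≤ (M₀ k).re ∧ (M₀ k).re < E ∧ 0 ≤ (M₀ k).im ∧ (M₀ k).im < E ∧ 0 ≤ s₀ k ∧ s₀ k < E := by
    intro k hk
    have hEc : ((E : ℕ) : ℤ) = 16 * 5 ^ 6 * P := by
      rw [hE]
      push_cast
      rfl
    rw [hEc]
    exact hcl k hk
  have h3 := h3 N hN3 Q L V z₀ S T hRg hPar hKF hcard
  obtain ⟨-, h6⟩ := h6 N hN6 Q hRg
  obtain ⟨hS1, hS2, hV1, hL1, hV2, hL2, hV3, hEQ⟩ := h6 L V z₀ S hPar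
  have h7 := h7 N hN7
  have hBr : (1 : ℝ) ≤ B := by exact_mod_cast hB
  -- sizes
  have hQ0 : 0 < (Q : ℝ) := lt_of_lt_of_le (Real.rpow_pos_of_pos hNpos _) hRg.q1
  have hQL : 2 * (Q : ℝ) ≤ L := by
    have e1 : 2 * (B : ℝ) ≤ N ^ (η / 4) := by
      have e2 : N ^ (η / 50) ≤ N ^ (η / 4) := Real.rpow_le_rpow_of_exponent_le hN0 (by linarith)
      have e3 : (B : ℝ) ≤ B ^ 2 := by nlinarith
      linarith
    have e4 : N ^ (1 / 2 - 3 / 4 * η) = N ^ (η / 4) * N ^ (1 / 2 - η) := by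
      rw [← Real.rpow_add hNpos]
      congr 1
      ring
    have e5 : 0 < N ^ (1 / 2 - η) := Real.rpow_pos_of_pos hNpos _
    calc 2 * (Q : ℝ) ≤ 2 * (B * N ^ (1 / 2 - η)) := by linarith [hRg.q2]
      _ = 2 * B * N ^ (1 / 2 - η) := by ring
      _ ≤ N ^ (η / 4) * N ^ (1 / 2 - η) := mul_le_mul_of_nonneg_right e1 e5.le
      _ = N ^ (1 / 2 - 3 / 4 * η) := e4.symm
      _ ≤ L := hL1
  have hEr : (1 : ℝ) ≤ E := by exact_mod_cast hE0
  have hLS : (L : ℝ) ^ 2 ≤ S := by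
    have e1 : (L : ℝ) ≤ √S := by
      have e2 := hPar.L1
      have e3 : (0 : ℝ) ≤ L := Nat.cast_nonneg _
      have e4 : (L : ℝ) ≤ 100 * (E : ℝ) * (L + 1) := by nlinarith
      linarith
    calc (L : ℝ) ^ 2 ≤ √S ^ 2 := pow_le_pow_left₀ (Nat.cast_nonneg _) e1 2
      _ = S := Real.sq_sqrt hPar.S0.le
  -- tuples with `q ∣ N(M)`
  have hA : ∑ k ∈ T, (((Hit E k (M₀ k) (s₀ k) L V z₀).filter
      (fun t => k.norm ∣ (pM E (M₀ k) t).norm)).card : ℝ) ≤ 32 * (B : ℝ) ^ 2 * N ^ (1 - 4 / 3 * η) := by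
    have e1 : ∀ k ∈ T, (((Hit E k (M₀ k) (s₀ k) L V z₀).filter
        (fun t => k.norm ∣ (pM E (M₀ k) t).norm)).card : ℝ) ≤ 4 * (L : ℝ) ^ 2 / Q := by
      intro k hk
      have hkk := hKF.kk k hk
      have hQE : E ≤ Q := by exact_mod_cast hEQ
      have hlo := hkk.lo
      have hhi := hkk.hi
      have hc1 : Nat.Coprime k.norm.natAbs (10 * E) := by
        rw [Nat.Prime.coprime_iff_not_dvd hkk.pr]
        intro hd
        rcases hkk.pr.dvd_mul.1 hd with hd | hd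
        · have := Nat.le_of_dvd (by norm_num) hd
          omega
        · have := Nat.le_of_dvd (by omega) hd
          omega
      have hqr : (Q : ℝ) < k.norm.natAbs := by exact_mod_cast hlo
      have hqr2 : (k.norm.natAbs : ℝ) ≤ 2 * Q := by exact_mod_cast hhi
      have hVq : V ≤ k.norm.natAbs ^ 3 := by
        have e3 : (V : ℝ) ≤ (k.norm.natAbs : ℝ) ^ 3 := by
          have e4 : (Q : ℝ) ^ 3 ≤ (k.norm.natAbs : ℝ) ^ 3 := pow_le_pow_left₀ hQ0.le hqr.le 3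
          have e5 : (0 : ℝ) ≤ V := Nat.cast_nonneg _
          linarith
        exact_mod_cast e3
      have e2 := h4 E L V k (M₀ k) (s₀ k) z₀ hkk.pr hc1 hVq
      refine e2.trans ?_
      have hq0 : (0 : ℝ) < k.norm.natAbs := hQ0.trans hqr
      have hL0 : (0 : ℝ) ≤ L := Nat.cast_nonneg _
      have e6 : (L : ℝ) / k.norm.natAbs + 1 ≤ 2 * L / Q := by
        have e7 : (L : ℝ) / k.norm.natAbs ≤ L / Q := div_le_div_of_nonneg_left hL0 hQ0 hqr.le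
        have e8 : (1 : ℝ) ≤ L / Q := by
          rw [le_div_iff₀ hQ0]
          linarith
        calc (L : ℝ) / k.norm.natAbs + 1 ≤ L / Q + L / Q := add_le_add e7 e8
          _ = 2 * L / Q := by ring
      calc 2 * (L : ℝ) * ((L : ℝ) / k.norm.natAbs + 1) ≤ 2 * L * (2 * L / Q) :=
            mul_le_mul_of_nonneg_left e6 (by positivity)
        _ = 4 * (L : ℝ) ^ 2 / Q := by ring
    have e2 : (T.card : ℝ) ≤ Q := by exact_mod_cast CGD_card hKF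
    calc _ ≤ ∑ k ∈ T, 4 * (L : ℝ) ^ 2 / Q := sum_le_sum e1
      _ = T.card * (4 * (L : ℝ) ^ 2 / Q) := by rw [sum_const, nsmul_eq_mul]
      _ ≤ Q * (4 * (L : ℝ) ^ 2 / Q) := mul_le_mul_of_nonneg_right e2 (by positivity)
      _ = 4 * (L : ℝ) ^ 2 := by field_simp
      _ ≤ 4 * S := by linarith
      _ ≤ 4 * (8 * B ^ 2 * N ^ (1 - 4 / 3 * η)) := by linarith
      _ = 32 * (B : ℝ) ^ 2 * N ^ (1 - 4 / 3 * η) := by ring
  -- bad primes
  set Λ : Finset ℕ := (range (⌊N ^ (3 / 4 * η)⌋₊ + 1)).filter (fun l => l.Prime ∧ Nat.Coprime l E ∧ w₀ < l) with hΛ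
  have hprop : ∀ l ∈ Λ, l.Prime ∧ Nat.Coprime l E ∧ w₀ < l ∧ (l : ℝ) ≤ N ^ (3 / 4 * η) := by
    intro l hl
    obtain ⟨hl1, hl2, hl3, hl4⟩ := mem_filter.1 hl
    refine ⟨hl2, hl3, hl4, ?_⟩
    have e1 : l ≤ ⌊N ^ (3 / 4 * η)⌋₊ := Nat.lt_succ_iff.1 (mem_range.1 hl1)
    exact (Nat.le_floor_iff (Real.rpow_nonneg hNpos.le _)).1 e1
  have hne : ∀ l ∈ Λ, l ≠ 2 ∧ l ≠ 5 := by
    intro l hl
    obtain ⟨hl1, hl2, hl3, hl4⟩ := hprop l hl
    refine ⟨fun h => ?_, fun h => ?_⟩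
    · subst h
      have e1 : 2 ∣ E := by
        rw [hE]
        exact Dvd.dvd.mul_right (by norm_num) _
      exact (Nat.Prime.coprime_iff_not_dvd Nat.prime_two).1 hl2 e1
    · subst h
      have e1 : 5 ∣ E := by
        rw [hE]
        exact Dvd.dvd.mul_right (by norm_num) _
      exact (Nat.Prime.coprime_iff_not_dvd Nat.prime_five).1 hl2 e1
  have hGex : ∀ l : ℕ, ∃ G : Finset (ℕ × OO), l ∈ Λ → G.card ≤ 2 ∧
      (∀ p ∈ G, 1 ≤ p.1 ∧ p.1 * p.2.norm.natAbs = l ∧ p.2.re ^ 2 ≤ p.2.norm.natAbs ∧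
        p.2.im ^ 2 ≤ p.2.norm.natAbs) ∧
      ∀ (k n M : OO) (s : ℤ), 2 * ph * star n * k ^ 2 = r5 * (s : OO) - (M.norm : OO) → (l : OO) ∣ n →
        ∃ p ∈ G, (p.1 : OO) * p.2 ∣ M ∧ (p.1 : ℤ) * p.2.norm ∣ s := by
    intro l
    by_cases hl : l ∈ Λ
    · obtain ⟨G, hG⟩ := h5 l (hprop l hl).1 (hne l hl).1 (hne l hl).2
      exact ⟨G, fun _ => hG⟩
    · exact ⟨∅, fun h => absurd h hl⟩
  choose G hG using hGex
  have h2 := h2 N hN2 Q L V z₀ S T M₀ s₀ hRg hPar hKF hcl' Λ G hprop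
    (fun l hl => ⟨(hG l hl).1, fun p hp => ((hG l hl).2.1 p hp).2⟩)
  refine ⟨fun k => (Hit E k (M₀ k) (s₀ k) L V z₀).filter (fun t => ¬ k.norm ∣ (pM E (M₀ k) t).norm ∧
    ∀ l ∈ Λ, ∀ p ∈ G l, ¬ ((p.1 : OO) * p.2 ∣ pM E (M₀ k) t ∧ (p.1 : ℤ) * p.2.norm ∣ ps E (s₀ k) t)),
    fun k _ => filter_subset _ _, ?_, ?_⟩
  · have e1 : ∀ k ∈ T, ((Hit E k (M₀ k) (s₀ k) L V z₀).card : ℝ) ≤
        (((Hit E k (M₀ k) (s₀ k) L V z₀).filter (fun t => ¬ k.norm ∣ (pM E (M₀ k) t).norm ∧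
          ∀ l ∈ Λ, ∀ p ∈ G l, ¬ ((p.1 : OO) * p.2 ∣ pM E (M₀ k) t ∧ (p.1 : ℤ) * p.2.norm ∣ ps E (s₀ k) t))).card : ℝ) +
        (((Hit E k (M₀ k) (s₀ k) L V z₀).filter (fun t => k.norm ∣ (pM E (M₀ k) t).norm)).card : ℝ) +
        ∑ l ∈ Λ, ∑ p ∈ G l, (((Hit E k (M₀ k) (s₀ k) L V z₀).filter (fun t =>
          (p.1 : OO) * p.2 ∣ pM E (M₀ k) t ∧ (p.1 : ℤ) * p.2.norm ∣ ps E (s₀ k) t)).card : ℝ) := by
      intro k _
      exact_mod_cast CGD_union (Hit E k (M₀ k) (s₀ k) L V z₀) (fun t => k.norm ∣ (pM E (M₀ k) t).norm)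
        (fun (p : ℕ × OO) t => (p.1 : OO) * p.2 ∣ pM E (M₀ k) t ∧ (p.1 : ℤ) * p.2.norm ∣ ps E (s₀ k) t) Λ G
    have e2 := sum_le_sum e1
    rw [sum_add_distrib, sum_add_distrib] at e2
    have e3 : ∑ k ∈ T, ∑ l ∈ Λ, ∑ p ∈ G l, (((Hit E k (M₀ k) (s₀ k) L V z₀).filter (fun t =>
          (p.1 : OO) * p.2 ∣ pM E (M₀ k) t ∧ (p.1 : ℤ) * p.2.norm ∣ ps E (s₀ k) t)).card : ℝ) =
        ∑ l ∈ Λ, ∑ p ∈ G l, ∑ k ∈ T, (((Hit E k (M₀ k) (s₀ k) L V z₀).filter (fun t =>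
          (p.1 : OO) * p.2 ∣ pM E (M₀ k) t ∧ (p.1 : ℤ) * p.2.norm ∣ ps E (s₀ k) t)).card : ℝ) := by
      rw [sum_comm]
      exact sum_congr rfl fun l _ => sum_comm
    rw [e3] at e2
    have hT0 : 0 ≤ T0 T L V := le_trans (Real.rpow_nonneg hNpos.le _) h3
    have e4 : C₀ / w₀ * T0 T L V ≤ 1 / 8 * T0 T L V := by
      refine mul_le_mul_of_nonneg_right ?_ hT0
      have : (0 : ℝ) < w₀ := by linarith
      rw [div_le_iff₀ this]
      linarith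
    exact CGD_final hη hBr hN0 h7 h3 (h1.trans e2) hA (h2.trans (by linarith))
  · intro k hk t ht
    obtain ⟨ht1, ht2, ht3⟩ := mem_filter.1 ht
    refine ⟨ht2, fun n l he hl hlN hln => ?_⟩
    by_contra hd
    have hl2 : l ≠ 2 := by
      rintro rfl
      exact hd (Dvd.dvd.mul_right (by norm_num) _)
    have hl5 : l ≠ 5 := by
      rintro rfl
      exact hd (Dvd.dvd.mul_right (by norm_num) _)
    have hlP : ¬ l ∣ P := fun h => hd (Dvd.dvd.mul_left h _)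
    have hcop : Nat.Coprime l E := by
      rw [Nat.Prime.coprime_iff_not_dvd hl, hE]
      intro h
      rcases hl.dvd_mul.1 h with h | h
      · rcases hl.dvd_mul.1 h with h | h
        · have e1 : l ∣ 2 ^ 4 := h
          exact hl2 ((Nat.prime_dvd_prime_iff_eq hl Nat.prime_two).1 (hl.dvd_of_dvd_pow e1))
        · exact hl5 ((Nat.prime_dvd_prime_iff_eq hl Nat.prime_five).1 (hl.dvd_of_dvd_pow h))
      · exact hlP h
    have hwl : w₀ < l := by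
      by_contra hlt
      refine hlP (dvd_prod_of_mem _ (mem_filter.2 ⟨mem_range.2 (by omega), hl, hl2, hl5⟩))
    have hmem : l ∈ Λ := by
      refine mem_filter.2 ⟨mem_range.2 ?_, hl, hcop, hwl⟩
      exact Nat.lt_succ_iff.2 ((Nat.le_floor_iff (Real.rpow_nonneg hNpos.le _)).2 hlN)
    obtain ⟨p, hp, hp1, hp2⟩ := (hG l hmem).2.2 k n (pM E (M₀ k) t) (ps E (s₀ k) t) he hln
    exact ht3 l hmem p hp ⟨hp1, hp2⟩

end Pool.Agent.RF
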